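import Mathlib
import Pool.Agent.H92.SG.Stmts

/-!
# Module TWF of board sg7: invariance of the form `Om`
-/

namespace Pool.Agent.H61.SG

open Pool.Agent.H92.SG

theorem sum_local {M : Type*} [AddCommGroup M] (F G : ℕ → M) (p N : ℕ) (h : p + 1 < N)
    (hlt : ∀ j, j ≠ p → j ≠ p + 1 → j < N → F j = G j)
    (hloc : F p + F (p + 1) = G p + G (p + 1)) :
    ∑ j ∈ Finset.range N, F j = ∑ j ∈ Finset.range N, G j := by
  obtain ⟨r, rfl⟩ : ∃ r, N = p + 2 + r := ⟨N - (p + 2), by omega⟩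
  rw [Finset.sum_range_add F (p + 2) r, Finset.sum_range_add G (p + 2) r,
    Finset.sum_range_succ F (p + 1), Finset.sum_range_succ F p,
    Finset.sum_range_succ G (p + 1), Finset.sum_range_succ G p]
  have h1 : ∑ j ∈ Finset.range p, F j = ∑ j ∈ Finset.range p, G j :=
    Finset.sum_congr rfl fun j hj => by
      have := Finset.mem_range.mp hj
      exact hlt j (by omega) (by omega) (by omega)
  have h2 : ∑ j ∈ Finset.range r, F (p + 2 + j) = ∑ j ∈ Finset.range r, G (p + 2 + j) :=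
    Finset.sum_congr rfl fun j hj => by
      have := Finset.mem_range.mp hj
      exact hlt _ (by omega) (by omega) (by omega)
  rw [h1, h2, add_assoc (∑ j ∈ Finset.range p, G j) (F p), hloc, ← add_assoc]

variable {R : Type} [CommRing R] {m : ℕ}

theorem pr_eq (c : R →+* R) (u v : V2 R) : pr c u v = c (u 0) * v 0 + c (u 1) * v 1 := by
  unfold pr
  rw [Fin.sum_univ_two]

/-- The summand with index `j` of the form. -/
def term (c : R →+* R) (t : Rˣ) (e : AddChar (ZMod m) R) (a : ℕ → ZMod m)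
    (x y : ℕ → V2 R) (j : ℕ) : R :=
  pr c (x j) (((t : R) + ((t⁻¹ : Rˣ) : R)) • y j + (2 : R) • Sv e (a j) (y j)) +
  (((t⁻¹ : Rˣ) : R) - (t : R)) * ∑ i ∈ Finset.range j, (pr c (x i) (y j) - pr c (x j) (y i))

theorem Om_eq (c : R →+* R) (t : Rˣ) (e : AddChar (ZMod m) R) (N : ℕ) (a : ℕ → ZMod m)
    (x y : ℕ → V2 R) : Om c t e N a x y = ∑ j ∈ Finset.range N, term c t e a x y j := by
  unfold Om term
  rw [Finset.sum_add_distrib, ← Finset.mul_sum]

theorem local_id (c : R →+* R) (t : Rˣ) (e : AddChar (ZMod m) R) (hct : c t = ((t⁻¹ : Rˣ) : R))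
    (hce : ∀ a, c (e a) = e (-a)) (a b : ZMod m) (x1 x2 y1 y2 : V2 R) :
    pr c (x2 + x1 - ((t⁻¹ : Rˣ) : R) • Sv e b x1)
        (((t : R) + ((t⁻¹ : Rˣ) : R)) • (y2 + y1 - ((t⁻¹ : Rˣ) : R) • Sv e b y1) +
          (2 : R) • Sv e b (y2 + y1 - ((t⁻¹ : Rˣ) : R) • Sv e b y1)) +
      pr c (((t⁻¹ : Rˣ) : R) • Sv e b x1)
        (((t : R) + ((t⁻¹ : Rˣ) : R)) • (((t⁻¹ : Rˣ) : R) • Sv e b y1) +
          (2 : R) • Sv e (2 * b - a) (((t⁻¹ : Rˣ) : R) • Sv e b y1)) +
      (((t⁻¹ : Rˣ) : R) - (t : R)) *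
        (pr c (x2 + x1 - ((t⁻¹ : Rˣ) : R) • Sv e b x1) (((t⁻¹ : Rˣ) : R) • Sv e b y1) -
          pr c (((t⁻¹ : Rˣ) : R) • Sv e b x1) (y2 + y1 - ((t⁻¹ : Rˣ) : R) • Sv e b y1)) =
    pr c x1 (((t : R) + ((t⁻¹ : Rˣ) : R)) • y1 + (2 : R) • Sv e a y1) +
      pr c x2 (((t : R) + ((t⁻¹ : Rˣ) : R)) • y2 + (2 : R) • Sv e b y2) +
      (((t⁻¹ : Rˣ) : R) - (t : R)) * (pr c x1 y2 - pr c x2 y1) := by
  have hti : c ((t⁻¹ : Rˣ) : R) = (t : R) := by
    have h1 : c ((t⁻¹ : Rˣ) : R) * c (t : R) = 1 := by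
      rw [← map_mul, Units.inv_mul, map_one]
    rw [hct] at h1
    calc c ((t⁻¹ : Rˣ) : R) = c ((t⁻¹ : Rˣ) : R) * (((t⁻¹ : Rˣ) : R) * (t : R)) := by
          rw [Units.inv_mul, mul_one]
      _ = (c ((t⁻¹ : Rˣ) : R) * ((t⁻¹ : Rˣ) : R)) * (t : R) := by ring
      _ = (t : R) := by rw [h1, one_mul]
  have htt : (t : R) * ((t⁻¹ : Rˣ) : R) = 1 := Units.mul_inv t
  have hb : e b * e (-b) = 1 := by rw [← AddChar.map_add_eq_mul]; simp
  have h2 : e (2 * b - a) = e b * e b * e (-a) := by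
    rw [← AddChar.map_add_eq_mul, ← AddChar.map_add_eq_mul]; congr 1; ring
  have h3 : e (-(2 * b - a)) = e (-b) * e (-b) * e a := by
    rw [← AddChar.map_add_eq_mul, ← AddChar.map_add_eq_mul]; congr 1; ring
  simp only [pr_eq, Sv, Pi.add_apply, Pi.sub_apply, Pi.smul_apply, smul_eq_mul,
    Matrix.cons_val_zero, Matrix.cons_val_one, map_add, map_sub, map_mul, hti, hce, h2, h3,
    neg_neg]
  generalize ((t⁻¹ : Rˣ) : R) = ti at *
  generalize (t : R) = tt at *
  generalize e b = B at *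
  generalize e (-b) = B' at *
  generalize e a = A at *
  generalize e (-a) = A' at *
  generalize c (x1 0) = p0
  generalize c (x1 1) = p1
  generalize c (x2 0) = q0
  generalize c (x2 1) = q1
  generalize y1 0 = r0
  generalize y1 1 = r1
  generalize y2 0 = s0
  generalize y2 1 = s1
  linear_combination (2*A*B^2*B'^2*p0*r1 + 2*A'*B^2*B'^2*p1*r0 + 2*B*B'*p0*r0*ti +
    2*B*B'*p0*r0*tt + 2*B*B'*p1*r1*ti + 2*B*B'*p1*r1*tt + 2*B*B'^2*p1*r0 - 4*B*p0*r1 -
    2*B*p0*s1 - 2*B*q0*r1 + 2*B^2*B'*p0*r1 - 4*B'*p1*r0 - 2*B'*p1*s0 - 2*B'*q1*r0) * htt +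
    (2*A*B*B'*p0*r1 + 2*A*p0*r1 + 2*A'*B*B'*p1*r0 + 2*A'*p1*r0 + 2*B*p0*r1 + 2*B'*p1*r0 -
    2*p0*s0*tt - 2*p1*s1*tt - 2*q0*r0*ti - 2*q1*r1*ti) * hb

/-- Invariance under a generator. -/
theorem gen (hA : TwA) (hD : ∀ (A : Type) [CommRing A] (i : ℕ) (a : ℕ → A), dih A (σ i) a =
      fun j => if j = i then a (i + 1) else if j = i + 1 then 2 * a (i + 1) - a i else a j)
    (c : R →+* R) (t : Rˣ) (e : AddChar (ZMod m) R) (hct : c t = ((t⁻¹ : Rˣ) : R))
    (hce : ∀ a, c (e a) = e (-a)) (N p : ℕ) (hp : p + 1 < N) (a : ℕ → ZMod m)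
    (s s' : ℕ → V2 R) :
    Om c t e N (dih _ (σ p) a) (tw t e (σ p) a s) (tw t e (σ p) a s') = Om c t e N a s s' := by
  rw [hD, hA.σ_apply, hA.σ_apply, Om_eq, Om_eq]
  set a1 : ℕ → ZMod m := fun j => if j = p then a (p + 1) else
    if j = p + 1 then 2 * a (p + 1) - a p else a j with ha1
  set x1 : ℕ → V2 R := fun j =>
      if j = p then s (p + 1) + s p - ((t⁻¹ : Rˣ) : R) • Sv e (a (p + 1)) (s p)
      else if j = p + 1 then ((t⁻¹ : Rˣ) : R) • Sv e (a (p + 1)) (s p) else s j with hx1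
  set y1 : ℕ → V2 R := fun j =>
      if j = p then s' (p + 1) + s' p - ((t⁻¹ : Rˣ) : R) • Sv e (a (p + 1)) (s' p)
      else if j = p + 1 then ((t⁻¹ : Rˣ) : R) • Sv e (a (p + 1)) (s' p) else s' j with hy1
  have a_o : ∀ j, j ≠ p → j ≠ p + 1 → a1 j = a j := by
    intro j h1 h2; simp [ha1, h1, h2]
  have x_o : ∀ j, j ≠ p → j ≠ p + 1 → x1 j = s j := by
    intro j h1 h2; simp [hx1, h1, h2]
  have y_o : ∀ j, j ≠ p → j ≠ p + 1 → y1 j = s' j := by
    intro j h1 h2; simp [hy1, h1, h2]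
  have a_p : a1 p = a (p + 1) := by simp [ha1]
  have a_q : a1 (p + 1) = 2 * a (p + 1) - a p := by simp [ha1]
  have x_p : x1 p = s (p + 1) + s p - ((t⁻¹ : Rˣ) : R) • Sv e (a (p + 1)) (s p) := by simp [hx1]
  have x_q : x1 (p + 1) = ((t⁻¹ : Rˣ) : R) • Sv e (a (p + 1)) (s p) := by simp [hx1]
  have y_p : y1 p = s' (p + 1) + s' p - ((t⁻¹ : Rˣ) : R) • Sv e (a (p + 1)) (s' p) := by
    simp [hy1]
  have y_q : y1 (p + 1) = ((t⁻¹ : Rˣ) : R) • Sv e (a (p + 1)) (s' p) := by simp [hy1]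
  have xs : x1 p + x1 (p + 1) = s p + s (p + 1) := by
    rw [x_p, x_q]; abel
  have ys : y1 p + y1 (p + 1) = s' p + s' (p + 1) := by
    rw [y_p, y_q]; abel
  have pr_add_left : ∀ u u' v : V2 R, pr c u v + pr c u' v = pr c (u + u') v := by
    intro u u' v; simp only [pr_eq, Pi.add_apply, map_add]; ring
  have pr_add_right : ∀ u v v' : V2 R, pr c u v + pr c u v' = pr c u (v + v') := by
    intro u v v'; simp only [pr_eq, Pi.add_apply]; ring
  apply sum_local _ _ p N hp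
  · intro j h1 h2 hj
    unfold term
    rw [a_o j h1 h2, x_o j h1 h2, y_o j h1 h2]
    congr 2
    rcases lt_or_ge j p with hlt | hge
    · exact Finset.sum_congr rfl fun i hi => by
        have := Finset.mem_range.mp hi
        rw [x_o i (by omega) (by omega), y_o i (by omega) (by omega)]
    · apply sum_local _ _ p j (by omega)
      · intro i h3 h4 _
        rw [x_o i h3 h4, y_o i h3 h4]
      · have e1 := pr_add_left (x1 p) (x1 (p + 1)) (s' j)
        have e2 := pr_add_left (s p) (s (p + 1)) (s' j)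
        have e3 := pr_add_right (s j) (y1 p) (y1 (p + 1))
        have e4 := pr_add_right (s j) (s' p) (s' (p + 1))
        rw [xs] at e1
        rw [ys] at e3
        linear_combination e1 - e2 - e3 + e4
  · unfold term
    rw [Finset.sum_range_succ, Finset.sum_range_succ]
    have hs : ∀ (u v : V2 R), ∑ i ∈ Finset.range p, (pr c (x1 i) v - pr c u (y1 i)) =
        ∑ i ∈ Finset.range p, (pr c (s i) v - pr c u (s' i)) := by
      intro u v
      exact Finset.sum_congr rfl fun i hi => by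
        have := Finset.mem_range.mp hi
        rw [x_o i (by omega) (by omega), y_o i (by omega) (by omega)]
    rw [hs, hs]
    have key : ∑ i ∈ Finset.range p, (pr c (s i) (y1 p) - pr c (x1 p) (s' i)) +
        ∑ i ∈ Finset.range p, (pr c (s i) (y1 (p + 1)) - pr c (x1 (p + 1)) (s' i)) =
        ∑ i ∈ Finset.range p, (pr c (s i) (s' p) - pr c (s p) (s' i)) +
        ∑ i ∈ Finset.range p, (pr c (s i) (s' (p + 1)) - pr c (s (p + 1)) (s' i)) := by
      rw [← Finset.sum_add_distrib, ← Finset.sum_add_distrib]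
      refine Finset.sum_congr rfl fun i _ => ?_
      have e1 := pr_add_left (x1 p) (x1 (p + 1)) (s' i)
      have e2 := pr_add_left (s p) (s (p + 1)) (s' i)
      have e3 := pr_add_right (s i) (y1 p) (y1 (p + 1))
      have e4 := pr_add_right (s i) (s' p) (s' (p + 1))
      rw [xs] at e1
      rw [ys] at e3
      linear_combination e3 - e4 - e1 + e2
    have loc := local_id c t e hct hce (a p) (a (p + 1)) (s p) (s (p + 1)) (s' p) (s' (p + 1))
    rw [← x_p, ← x_q, ← y_p, ← y_q, ← a_q] at loc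
    rw [a_p]
    linear_combination loc + (((t⁻¹ : Rˣ) : R) - (t : R)) * key

theorem TWF_thm (hA : TwA) (_hB : TwB) : TwFormStmt := by
  intro R _ m t e c hct hce N x hx
  have hD : ∀ (A : Type) [CommRing A] (i : ℕ) (a : ℕ → A), dih A (σ i) a =
      fun j => if j = i then a (i + 1) else if j = i + 1 then 2 * a (i + 1) - a i else a j := by
    intro A _ i a
    unfold dih
    rw [lift_σ]
    rfl
  refine Bn_induction (n := N) (p := fun x => ∀ (a : ℕ → ZMod m) (s s' : ℕ → V2 R),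
      Om c t e N (dih _ x a) (tw t e x a s) (tw t e x a s') = Om c t e N a s s')
    ?_ ?_ ?_ ?_ hx
  · intro a s s'
    rw [hA.one, hA.one, map_one]
    rfl
  · intro i hi a s s'
    exact gen hA hD c t e hct hce N i hi a s s'
  · intro x _ y _ h1 h2 a s s'
    rw [hA.mul, hA.mul, map_mul, LinearEquiv.mul_apply, h1, h2]
  · intro x _ h1 a s s'
    have h := h1 (dih _ x⁻¹ a) (tw t e x⁻¹ a s) (tw t e x⁻¹ a s')
    rw [← hA.mul, ← hA.mul, mul_inv_cancel, hA.one, hA.one, ← LinearEquiv.mul_apply, ← map_mul,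
      mul_inv_cancel, map_one] at h
    exact h.symm

end Pool.Agent.H61.SG
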